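import Pool.Agent.V8H59.KP.Idx

/-!
# Commuting invertible compact perturbations of the pair `(T, T)`

`H` is a complex Hilbert space, `H →L[ℂ] H` the bounded operators. For a Fredholm operator `T`
there are compact `K₁`, `K₂` such that `T + K₁`, `T + K₂` commute and form a Taylor invertible pair
if and only if the index of `T` is zero.
-/

set_option autoImplicit false

open Module

namespace Pool.Agent.Results.MP_b56e9d_an.IndexObstruction

section defs

variable {H : Type} [NormedAddCommGroup H] [InnerProductSpace ℂ H]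

/-- `T` is a Fredholm operator: closed range, finite-dimensional kernel and cokernel. -/
structure IsFredholm (T : H →L[ℂ] H) : Prop where
  isClosed_range : IsClosed (Set.range T)
  finite_ker : FiniteDimensional ℂ (LinearMap.ker (T : H →ₗ[ℂ] H))
  finite_coker : FiniteDimensional ℂ (H ⧸ LinearMap.range (T : H →ₗ[ℂ] H))

/-- The index `dim ker T - dim coker T` of a Fredholm operator. -/
noncomputable def index (T : H →L[ℂ] H) : ℤ :=
  (finrank ℂ (LinearMap.ker (T : H →ₗ[ℂ] H)) : ℤ) -
    finrank ℂ (H ⧸ LinearMap.range (T : H →ₗ[ℂ] H))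

/-- The boundary map `x ↦ (S₁ x, S₂ x)` of the Koszul complex. -/
noncomputable def D0 (S₁ S₂ : H →L[ℂ] H) : H →L[ℂ] H × H := S₁.prod S₂

/-- The boundary map `(x, y) ↦ -S₂ x + S₁ y` of the Koszul complex. -/
noncomputable def D1 (S₁ S₂ : H →L[ℂ] H) : H × H →L[ℂ] H :=
  -(S₂.comp (ContinuousLinearMap.fst ℂ H H)) + S₁.comp (ContinuousLinearMap.snd ℂ H H)

/-- The pair `(S₁, S₂)` commutes and is Taylor invertible: its Koszul complex
`0 → H → H × H → H → 0` is exact. -/
structure IsInvertiblePair (S₁ S₂ : H →L[ℂ] H) : Prop where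
  commute : S₁.comp S₂ = S₂.comp S₁
  injective : Function.Injective (D0 S₁ S₂)
  exact : ∀ p : H × H, D1 S₁ S₂ p = 0 ↔ ∃ z : H, D0 S₁ S₂ z = p
  surjective : Function.Surjective (D1 S₁ S₂)

/-- There are compact `K₁`, `K₂` such that `(T + K₁, T + K₂)` is a commuting invertible pair. -/
def HasInvertiblePerturbation (T : H →L[ℂ] H) : Prop :=
  ∃ K₁ K₂ : H →L[ℂ] H, IsCompactOperator K₁ ∧ IsCompactOperator K₂ ∧
    IsInvertiblePair (T + K₁) (T + K₂)

end defs

open Pool.Agent.V8H59.KP Pool.Agent.Helper509.SQ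

/-- The square summable sequences. -/
abbrev ell2 : Type := lp (fun _ : ℕ => ℂ) 2

theorem forward {H : Type} [NormedAddCommGroup H] [InnerProductSpace ℂ H] [CompleteSpace H]
    {T : H →L[ℂ] H} (hT : IsFredholm T) (h : HasInvertiblePerturbation T) : index T = 0 := by
  obtain ⟨K₁, K₂, hK₁, hK₂, hp⟩ := h
  have hb := bd_index T hT.finite_ker hT.finite_coker
  obtain ⟨f1, f2⟩ := fin_perturb hb hK₁
  set A := T + K₁ with hA
  set B := T + K₂ with hB
  let K : H →L[ℂ] H := K₂ - K₁
  have hBA : ∀ x, B x = A x + K x := by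
    intro x
    show T x + K₂ x = (T x + K₁ x) + (K₂ x - K₁ x)
    abel
  have hKc : IsCompactOperator K := hK₂.sub hK₁
  have hcomm : ∀ x, A (B x) = B (A x) := fun x => congrArg (fun S : H →L[ℂ] H => S x) hp.commute
  have hAK : A * K = K * A := by
    ext x
    show A (K x) = K (A x)
    have h1 := hcomm x
    rw [hBA, hBA, map_add] at h1
    exact add_left_cancel h1
  obtain ⟨V, hV, hVA⟩ := exists_invertible hKc hAK f1 f2 (by
    intro x hx hKx
    apply hp.injective
    rw [map_zero]
    show (A x, B x) = 0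
    rw [hBA, hx, hKx, add_zero]
    rfl) (by
    intro x y hxy
    have h1 : D1 A B (x, x + y) = 0 := by
      show -(B x) + A (x + y) = 0
      rw [hBA, map_add, hxy]
      abel
    obtain ⟨z, hz⟩ := (hp.exact _).1 h1
    exact ⟨z, (congrArg Prod.fst hz).symm⟩)
  let e : H ≃L[ℂ] H := ContinuousLinearEquiv.ofBijective V (LinearMap.ker_eq_bot.2 hV.1)
    (LinearMap.range_eq_top.2 hV.2)
  have he : (e : H →L[ℂ] H) = V := ContinuousLinearEquiv.coe_ofBijective _ _ _
  have hb0 : Bd V 0 := by
    rw [← he]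
    exact bd_equiv e
  refine hb.unique hb0 ?_
  have h3 : (V - T : H →L[ℂ] H) = (V - A) + K₁ := by
    rw [hA]; abel
  rw [h3]
  exact hVA.add hK₁

theorem backward {H : Type} [NormedAddCommGroup H] [InnerProductSpace ℂ H] [CompleteSpace H]
    {T : H →L[ℂ] H} (hT : IsFredholm T) (h : index T = 0) : HasInvertiblePerturbation T := by
  obtain ⟨K, hK, hbij⟩ := exists_compact_bij T hT.finite_ker hT.finite_coker (by
    have h1 : (finrank ℂ (LinearMap.ker (T : H →ₗ[ℂ] H)) : ℤ) -
      finrank ℂ (H ⧸ LinearMap.range (T : H →ₗ[ℂ] H)) = 0 := h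
    omega)
  refine ⟨K, K, hK, hK, rfl, ?_, ?_, ?_⟩
  · intro x y hxy
    exact hbij.1 (congrArg Prod.fst hxy)
  · rintro ⟨x, y⟩
    constructor
    · intro hxy
      have h1 : -((T + K) x) + (T + K) y = 0 := hxy
      have h2 : x = y := hbij.1 (by rwa [neg_add_eq_zero] at h1)
      obtain ⟨z, hz⟩ := hbij.2 x
      exact ⟨z, Prod.ext hz (by rw [← h2]; exact hz)⟩
    · rintro ⟨z, hz⟩
      rw [← hz]
      show -((T + K) ((T + K) z)) + (T + K) ((T + K) z) = 0
      exact neg_add_cancel _
  · intro w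
    obtain ⟨y, hy⟩ := hbij.2 w
    refine ⟨(0, y), ?_⟩
    show -((T + K) 0) + (T + K) y = w
    rw [map_zero, neg_zero, zero_add, hy]

theorem shift_fredholm : IsFredholm (shift : ell2 →L[ℂ] ell2) ∧ index (shift : ell2 →L[ℂ] ell2) = -1 := by
  have hcl : IsClosed (Set.range shift) := by
    have : Isometry shift := ortho_succ.orthogonalFamily.linearIsometry.isometry
    exact this.isClosedEmbedding.isClosed_range
  have hker : LinearMap.ker (shift : ell2 →ₗ[ℂ] ell2) = ⊥ := by
    rw [LinearMap.ker_eq_bot']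
    intro x hx
    have h1 : shift x = 0 := hx
    have h2 := norm_shift x
    rw [h1, norm_zero] at h2
    exact norm_eq_zero.1 h2.symm
  let φ : ell2 →ₗ[ℂ] ℂ := (lp.evalCLM ℂ (fun _ : ℕ => ℂ) (p := 2) 0 : ell2 →L[ℂ] ℂ)
  have hφ : ∀ x, φ x = x 0 := fun x => rfl
  have hrange : LinearMap.range (shift : ell2 →ₗ[ℂ] ell2) = LinearMap.ker φ := by
    ext y
    constructor
    · rintro ⟨x, rfl⟩
      exact shift_zero x
    · intro hy
      exact shift_range y hy
  have hsurj : Function.Surjective φ := by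
    intro c
    refine ⟨lp.single 2 0 c, ?_⟩
    rw [hφ]
    simp
  have e : (ell2 ⧸ LinearMap.range (shift : ell2 →ₗ[ℂ] ell2)) ≃ₗ[ℂ] ℂ :=
    (Submodule.quotEquivOfEq _ _ hrange).trans (φ.quotKerEquivOfSurjective hsurj)
  refine ⟨⟨hcl, ?_, ?_⟩, ?_⟩
  · rw [hker]; infer_instance
  · exact e.symm.finiteDimensional
  · unfold index
    rw [e.finrank_eq, hker]
    simp

/-- **Main theorem.** A Fredholm operator `T` on a complex Hilbert space has compact perturbations
`T + K₁`, `T + K₂` which commute and form a Taylor invertible pair if and only if the index of `T`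
is zero. There are Fredholm operators of index `-1` (the unilateral shift), so the answer to the
question is no. -/
theorem result :
    (∀ (H : Type) [NormedAddCommGroup H] [InnerProductSpace ℂ H] [CompleteSpace H]
      (T : H →L[ℂ] H), IsFredholm T → (HasInvertiblePerturbation T ↔ index T = 0)) ∧
    ∃ T : ell2 →L[ℂ] ell2, IsFredholm T ∧ index T = -1 ∧ ¬ HasInvertiblePerturbation T := by
  refine ⟨fun H _ _ _ T hT => ⟨forward hT, backward hT⟩, shift, shift_fredholm.1,
    shift_fredholm.2, fun h => ?_⟩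
  have h1 := forward shift_fredholm.1 h
  rw [shift_fredholm.2] at h1
  norm_num at h1

end Pool.Agent.Results.MP_b56e9d_an.IndexObstruction
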